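import Mathlib
import Pool.Agent.H10.Scaleno

set_option autoImplicit false

namespace Pool.Agent.Results.MP_fb3fae_co.AllTriangles

/-- For every triangle with side lengths `a, b, c` there is a convex polyhedron (the convex hull of
a finite set of points of Euclidean 3-space, with nonempty interior) each of whose
two-dimensional faces is a triangle with side lengths `a, b, c`. -/
theorem result (a b c : ℝ) (ha : 0 < a) (hb : 0 < b) (hc : 0 < c) (h1 : a < b + c)
    (h2 : b < c + a) (h3 : c < a + b) :
    ∃ V : Set (EuclideanSpace ℝ (Fin 3)), V.Finite ∧ (interior (convexHull ℝ V)).Nonempty ∧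
      ∀ F : Set (EuclideanSpace ℝ (Fin 3)), IsExposed ℝ (convexHull ℝ V) F →
        Module.finrank ℝ (vectorSpan ℝ F) = 2 →
        ∃ X Y Z : EuclideanSpace ℝ (Fin 3), F = convexHull ℝ {X, Y, Z} ∧
          dist Y Z = a ∧ dist Z X = b ∧ dist X Y = c :=
  Pool.Agent.H10.Scaleno.main a b c ha hb hc h1 h2 h3

end Pool.Agent.Results.MP_fb3fae_co.AllTriangles
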